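import Pool.Agent.Q8.HF.Embed

namespace Q8.HF

open Quaternion

section defs
variable {F : Type*} [DivisionRing F]

/-- The class `[x]` of `x : F` in the quotient `F/Γ = {0} ∪ Fˣ/Γ`
(modelled as `WithZero (Fˣ ⧸ Γ)`). -/
noncomputable def cls (Γ : Subgroup Fˣ) [Γ.Normal] (x : F) : WithZero (Fˣ ⧸ Γ) :=
  open Classical in
  if h : x = 0 then 0 else (((Units.mk0 x h : Fˣ) : Fˣ ⧸ Γ) : WithZero (Fˣ ⧸ Γ))

/-- The hyperaddition `[x] ⊞ [y] = {[x' + y'] : [x'] = [x], [y'] = [y]}` of the quotient `F/Γ`. -/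
def hadd (Γ : Subgroup Fˣ) [Γ.Normal] (a b : WithZero (Fˣ ⧸ Γ)) : Set (WithZero (Fˣ ⧸ Γ)) :=
  {c | ∃ x y : F, cls Γ x = a ∧ cls Γ y = b ∧ cls Γ (x + y) = c}

lemma cls_zero (Γ : Subgroup Fˣ) [Γ.Normal] : cls Γ (0 : F) = 0 := by
  simp [cls]

lemma cls_of_ne (Γ : Subgroup Fˣ) [Γ.Normal] {x : F} (h : x ≠ 0) :
    cls Γ x = (((Units.mk0 x h : Fˣ) : Fˣ ⧸ Γ) : WithZero (Fˣ ⧸ Γ)) := by
  simp [cls, h]

lemma cls_eq_zero (Γ : Subgroup Fˣ) [Γ.Normal] {x : F} : cls Γ x = 0 ↔ x = 0 := by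
  constructor
  · intro h
    by_contra hx
    rw [cls_of_ne Γ hx] at h
    exact WithZero.coe_ne_zero h
  · rintro rfl
    exact cls_zero Γ

lemma cls_mul (Γ : Subgroup Fˣ) [Γ.Normal] (x y : F) : cls Γ (x * y) = cls Γ x * cls Γ y := by
  by_cases hx : x = 0
  · simp [hx, cls_zero]
  by_cases hy : y = 0
  · simp [hy, cls_zero]
  rw [cls_of_ne Γ hx, cls_of_ne Γ hy, cls_of_ne Γ (mul_ne_zero hx hy), ← WithZero.coe_mul,
    ← QuotientGroup.mk_mul]
  congr 2
  ext
  simp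

lemma cls_surj (Γ : Subgroup Fˣ) [Γ.Normal] (a : WithZero (Fˣ ⧸ Γ)) : ∃ x : F, cls Γ x = a := by
  induction a using WithZero.recZeroCoe with
  | zero => exact ⟨0, cls_zero Γ⟩
  | coe a =>
    obtain ⟨u, rfl⟩ := QuotientGroup.mk_surjective a
    refine ⟨(u : F), ?_⟩
    rw [cls_of_ne Γ u.ne_zero]
    congr 2
    ext
    simp

end defs

/-- `f` is an isomorphism of the quotient `F/Γ` with the quotient `K/Δ`: a bijection with
`f 0 = 0`, `f (a b) = f a f b` and `f (a ⊞ b) = f a ⊞ f b`. -/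
structure IsHyperIso {F K : Type*} [DivisionRing F] [DivisionRing K]
    (Γ : Subgroup Fˣ) [Γ.Normal] (Δ : Subgroup Kˣ) [Δ.Normal]
    (f : WithZero (Fˣ ⧸ Γ) → WithZero (Kˣ ⧸ Δ)) : Prop where
  bij : Function.Bijective f
  zero : f 0 = 0
  mul : ∀ a b, f (a * b) = f a * f b
  add : ∀ a b, f '' (hadd Γ a b) = hadd Δ (f a) (f b)

/-- The group of rational quaternions of norm `1`. -/
noncomputable def normOne : Subgroup (ℍ[ℚ])ˣ := (Units.map (normSq (R := ℚ)).toMonoidHom).ker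

instance : normOne.Normal := by unfold normOne; infer_instance

lemma mem_normOne (u : (ℍ[ℚ])ˣ) : u ∈ normOne ↔ normSq (u : ℍ[ℚ]) = 1 := by
  unfold normOne
  rw [MonoidHom.mem_ker, Units.ext_iff]
  rfl

lemma cls_eq_iff (x y : ℍ[ℚ]) : cls normOne x = cls normOne y ↔ normSq x = normSq y := by
  by_cases hx : x = 0
  · subst hx
    rw [cls_zero, map_zero]
    constructor
    · intro h
      rw [(cls_eq_zero normOne).mp h.symm, map_zero]
    · intro h
      rw [(Quaternion.normSq_eq_zero).mp h.symm, cls_zero]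
  by_cases hy : y = 0
  · subst hy
    rw [cls_zero, map_zero]
    constructor
    · intro h
      exact absurd ((cls_eq_zero normOne).mp h) hx
    · intro h
      exact absurd ((Quaternion.normSq_eq_zero).mp h) hx
  rw [cls_of_ne _ hx, cls_of_ne _ hy, WithZero.coe_inj, QuotientGroup.eq, mem_normOne]
  have hx' : normSq x ≠ 0 := Quaternion.normSq_ne_zero.mpr hx
  have : normSq (((Units.mk0 x hx)⁻¹ * Units.mk0 y hy : (ℍ[ℚ])ˣ) : ℍ[ℚ])
      = (normSq x)⁻¹ * normSq y := by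
    rw [Units.val_mul, Units.val_inv_eq_inv_val, map_mul, map_inv₀]
    rfl
  rw [this]
  constructor
  · intro h
    field_simp at h
    exact h.symm
  · intro h
    rw [h]
    exact inv_mul_cancel₀ (by rw [← h]; exact hx')

lemma tri (A B : ℍ[ℚ]) : √((normSq (A + B) : ℚ) : ℝ) ≤ √((normSq A : ℚ) : ℝ) + √((normSq B : ℚ) : ℝ) := by
  have hA : (0:ℝ) ≤ ((normSq A : ℚ) : ℝ) := by exact_mod_cast Quaternion.normSq_nonneg
  have hB : (0:ℝ) ≤ ((normSq B : ℚ) : ℝ) := by exact_mod_cast Quaternion.normSq_nonneg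
  rw [Real.sqrt_le_iff]
  refine ⟨by positivity, ?_⟩
  rw [add_sq, Real.sq_sqrt hA, Real.sq_sqrt hB]
  set c : ℝ := ((A.re * B.re + A.imI * B.imI + A.imJ * B.imJ + A.imK * B.imK : ℚ) : ℝ) with hc
  have h1 : ((normSq (A + B) : ℚ) : ℝ) = ((normSq A : ℚ) : ℝ) + ((normSq B : ℚ) : ℝ) + 2 * c := by
    rw [hc]
    rw [Quaternion.normSq_def', Quaternion.normSq_def', Quaternion.normSq_def']
    simp only [Quaternion.re_add, Quaternion.imI_add, Quaternion.imJ_add, Quaternion.imK_add]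
    push_cast
    ring
  have h2 : c ^ 2 ≤ ((normSq A : ℚ) : ℝ) * ((normSq B : ℚ) : ℝ) := by
    rw [hc, Quaternion.normSq_def', Quaternion.normSq_def']
    norm_cast
    nlinarith [sq_nonneg (A.re * B.imI - A.imI * B.re), sq_nonneg (A.re * B.imJ - A.imJ * B.re),
      sq_nonneg (A.re * B.imK - A.imK * B.re), sq_nonneg (A.imI * B.imJ - A.imJ * B.imI),
      sq_nonneg (A.imI * B.imK - A.imK * B.imI), sq_nonneg (A.imJ * B.imK - A.imK * B.imJ)]
  have h3 : c ≤ √((normSq A : ℚ) : ℝ) * √((normSq B : ℚ) : ℝ) := by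
    rw [← Real.sqrt_mul hA]
    exact le_trans (le_abs_self c) (Real.abs_le_sqrt h2)
  rw [h1]
  linarith

section main
variable {K : Type*} [Field K]

/-- The properties of the map `K → ℚ` induced by an isomorphism. -/
lemma exists_psi (Δ : Subgroup Kˣ) (f : WithZero ((ℍ[ℚ])ˣ ⧸ normOne) → WithZero (Kˣ ⧸ Δ))
    (hf : IsHyperIso normOne Δ f) :
    ∃ ψ : K → ℚ, (∀ x, ψ x = 0 ↔ x = 0) ∧ (∀ x, 0 ≤ ψ x) ∧ (∀ x y, ψ (x * y) = ψ x * ψ y) ∧
      (∀ x y, ∃ A B : ℍ[ℚ], normSq A = ψ x ∧ normSq B = ψ y ∧ normSq (A + B) = ψ (x + y)) ∧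
      (∀ A B : ℍ[ℚ], ∃ x y : K, ψ x = normSq A ∧ ψ y = normSq B ∧ ψ (x + y) = normSq (A + B)) := by
  have hex : ∀ x : K, ∃ A : ℍ[ℚ], f (cls normOne A) = cls Δ x := by
    intro x
    obtain ⟨a, ha⟩ := hf.bij.2 (cls Δ x)
    obtain ⟨A, hA⟩ := cls_surj normOne a
    exact ⟨A, by rw [hA, ha]⟩
  choose R hR using hex
  have key : ∀ (x : K) (A : ℍ[ℚ]), f (cls normOne A) = cls Δ x → normSq (R x) = normSq A := by
    intro x A h
    rw [← cls_eq_iff]
    exact hf.bij.1 (by rw [hR, h])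
  have f0 : ∀ A : ℍ[ℚ], f (cls normOne A) = 0 → A = 0 := by
    intro A h
    rw [← hf.zero] at h
    exact (cls_eq_zero normOne).mp (hf.bij.1 h)
  refine ⟨fun x => normSq (R x), ?_, fun x => Quaternion.normSq_nonneg, ?_, ?_, ?_⟩
  · intro x
    constructor
    · intro h
      have h' : R x = 0 := Quaternion.normSq_eq_zero.mp h
      have := hR x
      rw [h', cls_zero, hf.zero] at this
      exact (cls_eq_zero Δ).mp this.symm
    · rintro rfl
      have := f0 (R 0) (by rw [hR, cls_zero])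
      show normSq (R 0) = 0
      rw [this, map_zero]
  · intro x y
    show normSq (R (x * y)) = normSq (R x) * normSq (R y)
    rw [← map_mul]
    apply key
    rw [cls_mul, hf.mul, hR, hR, cls_mul]
  · intro x y
    have h1 : cls Δ (x + y) ∈ hadd Δ (f (cls normOne (R x))) (f (cls normOne (R y))) :=
      ⟨x, y, (hR x).symm, (hR y).symm, rfl⟩
    rw [← hf.add] at h1
    obtain ⟨c, ⟨A, B, hA, hB, rfl⟩, hc⟩ := h1
    exact ⟨A, B, (cls_eq_iff _ _).mp hA, (cls_eq_iff _ _).mp hB, (key _ _ hc).symm⟩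
  · intro A B
    have h1 : f (cls normOne (A + B)) ∈ f '' hadd normOne (cls normOne A) (cls normOne B) :=
      ⟨_, ⟨A, B, rfl, rfl, rfl⟩, rfl⟩
    rw [hf.add] at h1
    obtain ⟨x, y, hx, hy, hxy⟩ := h1
    exact ⟨x, y, key _ _ hx.symm, key _ _ hy.symm, key _ _ hxy.symm⟩

lemma not_rat_sq_three (r : ℚ) : r ^ 2 ≠ 3 := by
  intro h
  have h1 : Irrational (√(3:ℝ)) := by
    have := Nat.Prime.irrational_sqrt Nat.prime_three
    exact_mod_cast this
  apply h1
  refine ⟨|r|, ?_⟩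
  rw [eq_comm, Real.sqrt_eq_iff_mul_self_eq (by norm_num) (by exact_mod_cast abs_nonneg r)]
  have : |r| * |r| = 3 := by rw [abs_mul_abs_self, ← h]; ring
  exact_mod_cast this.symm

theorem no_iso (Δ : Subgroup Kˣ) (f : WithZero ((ℍ[ℚ])ˣ ⧸ normOne) → WithZero (Kˣ ⧸ Δ))
    (hf : IsHyperIso normOne Δ f) : False := by
  obtain ⟨ψ, h0, hnn, hmul, hadd1, hadd2⟩ := exists_psi Δ f hf
  have h1 : ψ 1 = 1 := by
    have h := hmul 1 1
    rw [mul_one] at h
    have h' : ψ 1 ≠ 0 := fun hh => one_ne_zero ((h0 1).mp hh)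
    field_simp at h
    exact h.symm
  let v : AbsoluteValue K ℝ :=
    { toFun := fun x => √((ψ x : ℚ) : ℝ)
      map_mul' := by
        intro x y
        rw [hmul, Rat.cast_mul, Real.sqrt_mul (by exact_mod_cast hnn x)]
      nonneg' := fun x => Real.sqrt_nonneg _
      eq_zero' := by
        intro x
        rw [Real.sqrt_eq_zero (by exact_mod_cast hnn x)]
        rw [← h0 x]
        norm_cast
      add_le' := by
        intro x y
        obtain ⟨A, B, hA, hB, hAB⟩ := hadd1 x y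
        rw [← hA, ← hB, ← hAB]
        exact tri A B }
  have hv : ∀ x, v x = √((ψ x : ℚ) : ℝ) := fun x => rfl
  -- units
  have hadd3 : ∀ B : ℍ[ℚ], ∃ u : K, ψ u = normSq B ∧ ψ (1 + u) = normSq (1 + B) := by
    intro B
    obtain ⟨x, y, hx, hy, hxy⟩ := hadd2 1 B
    rw [map_one] at hx
    have hx0 : x ≠ 0 := fun h => by
      rw [← h0 x, hx] at h
      exact one_ne_zero h
    refine ⟨y / x, ?_, ?_⟩
    · have := hmul (y / x) x
      rw [div_mul_cancel₀ _ hx0, hx, mul_one, hy] at this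
      exact this.symm
    · have := hmul (1 + y / x) x
      rw [add_mul, one_mul, div_mul_cancel₀ _ hx0, hx, mul_one, hxy] at this
      exact this.symm
  -- natural numbers
  have hnat_le : ∀ n : ℕ, v (n : K) ≤ n := by
    intro n
    induction n with
    | zero => simp
    | succ n ih =>
      push_cast
      refine le_trans (v.add_le _ _) ?_
      rw [v.map_one]
      linarith
  have hnat : ∀ n : ℕ, v (n : K) = n := by
    intro n
    obtain ⟨e, he, he1⟩ := hadd3 1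
    rw [map_one] at he
    have hve : v e = 1 := by rw [hv, he]; simp
    have hve1 : v (1 + e) = 2 := by
      rw [hv, he1]
      have : normSq (1 + 1 : ℍ[ℚ]) = 4 := by
        rw [Quaternion.normSq_def']
        simp
        norm_num
      rw [this, show ((4:ℚ):ℝ) = 2 ^ 2 by norm_num]
      exact Real.sqrt_sq (by norm_num)
    rcases Nat.eq_zero_or_pos n with rfl | hn
    · simp
    have hb : ((1 + e) ^ n : K) = ∑ k ∈ Finset.range (n + 1), e ^ (n - k) * ((n.choose k : ℕ) : K) := by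
      rw [add_pow]
      refine Finset.sum_congr rfl fun k _ => ?_
      rw [one_pow, one_mul]
    have h2 : (2:ℝ) ^ n ≤ ∑ k ∈ Finset.range (n + 1), v ((n.choose k : ℕ) : K) := by
      calc (2:ℝ) ^ n = v ((1 + e) ^ n) := by rw [map_pow, hve1]
        _ ≤ ∑ k ∈ Finset.range (n + 1), v (e ^ (n - k) * ((n.choose k : ℕ) : K)) := by
            rw [hb]; exact v.sum_le _ _
        _ = _ := by
            refine Finset.sum_congr rfl fun k _ => ?_
            rw [map_mul, map_pow, hve, one_pow, one_mul]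
    have h3 : (2:ℝ) ^ n = ∑ k ∈ Finset.range (n + 1), ((n.choose k : ℕ) : ℝ) := by
      have := Nat.sum_range_choose n
      exact_mod_cast this.symm
    have h4 : ∑ k ∈ Finset.range (n + 1), (((n.choose k : ℕ) : ℝ) - v ((n.choose k : ℕ) : K)) = 0 := by
      apply le_antisymm
      · rw [Finset.sum_sub_distrib, ← h3]
        linarith
      · exact Finset.sum_nonneg fun k _ => sub_nonneg.mpr (hnat_le _)
    rw [Finset.sum_eq_zero_iff_of_nonneg (fun k _ => sub_nonneg.mpr (hnat_le _))] at h4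
    have h5 := h4 1 (Finset.mem_range.mpr (by omega))
    rw [Nat.choose_one_right] at h5
    linarith
  obtain ⟨ι, hι⟩ := exists_embedding_abv v hnat
  have hsq : ∀ x, (ι x).re ^ 2 + (ι x).im ^ 2 = ((ψ x : ℚ) : ℝ) := by
    intro x
    have h2 : ‖ι x‖ ^ 2 = ((ψ x : ℚ) : ℝ) := by
      rw [hι, hv, Real.sq_sqrt (by exact_mod_cast hnn x)]
    rw [← h2, Complex.sq_norm, Complex.normSq_apply]
    ring
  obtain ⟨u, hu, hu1⟩ := hadd3 (⟨0, 1, 0, 0⟩ : ℍ[ℚ])
  obtain ⟨w, hw, hw1⟩ := hadd3 (⟨1/2, 1/2, 1/2, 1/2⟩ : ℍ[ℚ])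
  rw [Quaternion.normSq_def'] at hu hu1 hw hw1
  simp only [Quaternion.re_add, Quaternion.imI_add, Quaternion.imJ_add, Quaternion.imK_add,
    Quaternion.re_one, Quaternion.imI_one, Quaternion.imJ_one, Quaternion.imK_one] at hu hu1 hw hw1
  norm_num at hu hu1 hw hw1
  have eu := hsq u
  have eu1 := hsq (1 + u)
  have ew := hsq w
  have ew1 := hsq (1 + w)
  have euw := hsq (u + w)
  rw [hu] at eu
  rw [hu1] at eu1
  rw [hw] at ew
  rw [hw1] at ew1
  simp only [map_add, map_one, Complex.add_re, Complex.add_im, Complex.one_re, Complex.one_im]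
    at eu1 ew1 euw
  push_cast at eu eu1 ew ew1
  have hre : (ι u).re = 0 := by nlinarith
  have hrw : (ι w).re = 1 / 2 := by nlinarith
  have him : (ι u).im ^ 2 = 1 := by rw [hre] at eu; linarith
  have hiw : (ι w).im ^ 2 = 3 / 4 := by rw [hrw] at ew; linarith
  have h3 : (((ψ (u + w) - 2 : ℚ) : ℝ)) ^ 2 = 3 := by
    have : (((ψ (u + w) - 2 : ℚ) : ℝ)) = 2 * ((ι u).im * (ι w).im) := by
      push_cast
      rw [← euw, hre, hrw]
      nlinarith
    rw [this]
    calc (2 * ((ι u).im * (ι w).im)) ^ 2 = 4 * ((ι u).im ^ 2 * (ι w).im ^ 2) := by ring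
      _ = 3 := by rw [him, hiw]; norm_num
  exact not_rat_sq_three (ψ (u + w) - 2) (by exact_mod_cast h3)

end main

end Q8.HF
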