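import Mathlib

namespace Q8.HF

open UniformSpace

section
variable {K : Type*} [NormedField K]

lemma charZero_of_norm (hK : ∀ n : ℕ, ‖(n : K)‖ = n) : CharZero K := by
  refine charZero_of_inj_zero ?_
  intro n hn
  have := hK n
  rw [hn, norm_zero] at this
  exact_mod_cast this.symm

lemma norm_ratCast (hK : ∀ n : ℕ, ‖(n : K)‖ = n) (q : ℚ) : ‖(q : K)‖ = |(q : ℝ)| := by
  have := charZero_of_norm hK
  have hz : ∀ z : ℤ, ‖(z : K)‖ = |(z : ℝ)| := by
    intro z
    obtain ⟨n, rfl | rfl⟩ := z.eq_nat_or_neg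
    · simp [hK]
    · simp [hK]
  rw [Rat.cast_def (K := K), norm_div, hz, hK, Rat.cast_def (K := ℝ), abs_div]
  simp

/-- A normed field in which the norm of every natural number `n` is `n` embeds isometrically
in the complex numbers (Ostrowski, via the Gelfand-Mazur theorem). -/
theorem exists_embedding (hK : ∀ n : ℕ, ‖(n : K)‖ = n) :
    ∃ ι : K →+* ℂ, ∀ x, ‖ι x‖ = ‖x‖ := by
  have := charZero_of_norm hK
  -- the map ℚ → Completion K
  let e : K →+* Completion K := Completion.coeRingHom
  have he : ∀ x : K, ‖e x‖ = ‖x‖ := fun x => Completion.norm_coe x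
  let f : ℚ →+* Completion K := e.comp (Rat.castHom K)
  have hf : ∀ q : ℚ, ‖f q‖ = |(q : ℝ)| := by
    intro q
    show ‖e ((Rat.castHom K) q)‖ = _
    rw [he]
    exact norm_ratCast hK q
  have hfi : Isometry f := by
    refine AddMonoidHomClass.isometry_of_norm f ?_
    intro q
    rw [hf q, ← Real.norm_eq_abs, Rat.norm_cast_real]
  let i : ℚ →+* ℝ := Rat.castHom ℝ
  have ui : IsUniformInducing i := Rat.isUniformEmbedding_coe_real.isUniformInducing
  have di : DenseRange i := Rat.isDenseEmbedding_coe_real.dense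
  let j : ℝ →+* Completion K := IsDenseInducing.extendRingHom ui di hfi.uniformContinuous
  have hji : ∀ q : ℚ, j (q : ℝ) = f q := by
    intro q
    exact IsDenseInducing.extend_eq (ui.isDenseInducing di) hfi.continuous q
  have hjc : Continuous j := by
    exact (uniformContinuous_uniformly_extend ui di hfi.uniformContinuous).continuous
  have hj : ∀ r : ℝ, ‖j r‖ = |r| := by
    intro r
    refine di.induction_on (p := fun r => ‖j r‖ = |r|) r (isClosed_eq hjc.norm continuous_abs) ?_
    intro q
    show ‖j (q : ℝ)‖ = |(q : ℝ)|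
    rw [hji, hf]
  let _ : Algebra ℝ (Completion K) := j.toAlgebra
  let _ : NormedAlgebra ℝ (Completion K) :=
    { norm_smul_le := by
        intro r x
        rw [Algebra.smul_def, norm_mul]
        exact le_of_eq (by rw [show algebraMap ℝ (Completion K) r = j r from rfl, hj, Real.norm_eq_abs]) }
  -- Gelfand–Mazur
  have key : ∃ θ : Completion K →+* ℂ, ∃ C : ℝ, ∀ z, ‖z‖ ≤ C * ‖θ z‖ := by
    rcases NormedAlgebra.Real.nonempty_algEquiv_or (Completion K) with ⟨⟨φ⟩⟩ | ⟨⟨φ⟩⟩
    · refine ⟨(Complex.ofRealHom).comp (φ : Completion K →+* ℝ), 1, ?_⟩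
      intro z
      have hz : z = algebraMap ℝ (Completion K) (φ z) := by
        apply φ.injective
        rw [AlgEquiv.commutes]
        simp
      have : ‖z‖ = |φ z| := by
        conv_lhs => rw [hz]
        exact hj _
      rw [this]
      simp
    · let g : ℂ →ₗ[ℝ] Completion K := φ.symm.toLinearMap
      let G : ℂ →L[ℝ] Completion K := LinearMap.toContinuousLinearMap g
      refine ⟨(φ : Completion K →+* ℂ), ‖G‖, ?_⟩
      intro z
      have hz : z = G (φ z) := by
        show z = φ.symm (φ z)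
        simp
      conv_lhs => rw [hz]
      exact G.le_opNorm _
  obtain ⟨θ, C, hC⟩ := key
  have hCpos : 0 < C := by
    have h1 := hC 1
    simp at h1
    linarith
  have hle : ∀ z, ‖z‖ ≤ ‖θ z‖ := by
    intro z
    by_contra hcon
    push Not at hcon
    have hz0 : 0 < ‖z‖ := lt_of_le_of_lt (norm_nonneg _) hcon
    by_cases h0 : ‖θ z‖ = 0
    · have := hC z
      rw [h0, mul_zero] at this
      linarith
    have h0' : 0 < ‖θ z‖ := lt_of_le_of_ne (norm_nonneg _) (Ne.symm h0)
    have hr : 1 < ‖z‖ / ‖θ z‖ := (one_lt_div h0').mpr hcon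
    obtain ⟨n, hn⟩ := pow_unbounded_of_one_lt C hr
    have := hC (z ^ n)
    rw [map_pow, norm_pow, norm_pow] at this
    rw [div_pow, lt_div_iff₀ (pow_pos h0' n)] at hn
    linarith
  have heq : ∀ z, ‖θ z‖ = ‖z‖ := by
    intro z
    by_cases hz : z = 0
    · simp [hz]
    refine le_antisymm ?_ (hle z)
    have h1 := hle z⁻¹
    rw [map_inv₀, norm_inv, norm_inv] at h1
    have hz' : 0 < ‖z‖ := norm_pos_iff.mpr hz
    have hθ : θ z ≠ 0 := by
      intro h
      exact hz (θ.injective (by rw [h, map_zero]))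
    have hθ' : 0 < ‖θ z‖ := norm_pos_iff.mpr hθ
    exact (inv_le_inv₀ hz' hθ').mp h1
  exact ⟨θ.comp e, fun x => by rw [RingHom.comp_apply, heq, he]⟩

end

/-- The same for absolute values. -/
theorem exists_embedding_abv {K : Type*} [Field K] (v : AbsoluteValue K ℝ)
    (hv : ∀ n : ℕ, v (n : K) = n) : ∃ ι : K →+* ℂ, ∀ x, ‖ι x‖ = v x := by
  let _ : NormedField K := v.toNormedField
  exact exists_embedding (K := K) hv

end Q8.HF
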